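import Pool.Agent.H34.N6V.Targets

/-!
V12: squares in finite fields and resultants (row VFF1 of the board n6_modules).
-/

set_option autoImplicit false

open Polynomial NumberField IsDedekindDomain Pool.Agent.H32.QC Pool.Agent.H34.N6
open Pool.Agent.H13.DEV Pool.Agent.H34.N6V

namespace Pool.Agent.H89.N6V

/-- the resultant is a norm -/
theorem res_norm (F : Type) [Field F] [PerfectField F] (q D : F[X]) (hq : q.Monic)
    [hi : Fact (Irreducible q)] : q.resultant D = Algebra.norm F (AdjoinRoot.mk q D) := by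
  let E := AlgebraicClosure F
  have : FiniteDimensional F (AdjoinRoot q) := (AdjoinRoot.powerBasis hi.out.ne_zero).finite
  have : Algebra.IsSeparable F (AdjoinRoot q) := inferInstance
  apply (algebraMap F E).injective
  rw [Algebra.norm_eq_prod_embeddings, ← resultant_map_map]
  have hsp : (q.map (algebraMap F E)).Splits := IsAlgClosed.splits _
  have h1 := resultant_eq_prod_eval (q.map (algebraMap F E)) (D.map (algebraMap F E)) D.natDegree
    natDegree_map_le hsp
  rw [natDegree_map] at h1
  rw [h1, (hq.map _).leadingCoeff, one_pow, one_mul]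
  let _ : Fintype { x // x ∈ q.aroots E } :=
    Fintype.ofEquiv (AdjoinRoot q →ₐ[F] E) (AdjoinRoot.equiv E F q hi.out.ne_zero)
  rw [Fintype.prod_equiv (AdjoinRoot.equiv E F q hi.out.ne_zero) _ (fun y => aeval y.1 D)]
  · have hsep : q.Separable := PerfectField.separable_of_irreducible hi.out
    have hnd : (q.aroots E).Nodup := nodup_roots (hsep.map)
    classical
    rw [← Finset.prod_subtype (q.aroots E).toFinset (by simp) (fun y => aeval y D)]
    rw [Finset.prod, Multiset.toFinset_val, hnd.dedup]
    simp [aroots, eval_map, aeval_def]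
  · intro σ
    have e : ((AdjoinRoot.equiv E F q hi.out.ne_zero) σ).1 = σ (AdjoinRoot.root q) := by
      simp [AdjoinRoot.equiv]
    rw [e, aeval_algHom_apply, AdjoinRoot.aeval_eq]

/-- squares in finite fields and resultants -/
theorem ff1 (F : Type) [Field F] [Finite F] (h2 : (2 : F) ≠ 0) (q D : F[X]) (hq : q.Monic)
    (hi : Irreducible q) (hD : ¬ q ∣ D) :
    (IsSquare (q.resultant D) ↔ ∃ s : F[X], q ∣ D - s ^ 2) := by
  have := Fact.mk hi
  have : FiniteDimensional F (AdjoinRoot q) := (AdjoinRoot.powerBasis hi.ne_zero).finite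
  have : Finite (AdjoinRoot q) := Module.finite_of_finite F
  have := Fintype.ofFinite F
  have := Fintype.ofFinite (AdjoinRoot q)
  set a := AdjoinRoot.mk q D with ha
  have ha0 : a ≠ 0 := by rwa [ha, Ne, AdjoinRoot.mk_eq_zero]
  have hsq : (∃ s : F[X], q ∣ D - s ^ 2) ↔ IsSquare a := by
    constructor
    · rintro ⟨s, hs⟩
      refine ⟨AdjoinRoot.mk q s, ?_⟩
      rw [← AdjoinRoot.mk_eq_zero, map_sub, map_pow, sub_eq_zero] at hs
      rw [ha, hs, sq]
    · rintro ⟨b, hb⟩
      obtain ⟨s, rfl⟩ := AdjoinRoot.mk_surjective b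
      refine ⟨s, ?_⟩
      rw [← AdjoinRoot.mk_eq_zero, map_sub, map_pow, sub_eq_zero, sq, ← hb]
  have h2' : (2 : AdjoinRoot q) ≠ 0 := by
    intro h
    apply h2
    apply (algebraMap F (AdjoinRoot q)).injective
    rw [map_ofNat, map_zero, h]
  have hF : ringChar F ≠ 2 := by
    intro h
    apply h2
    have := ringChar.Nat.cast_ringChar (R := F)
    rw [h] at this
    exact_mod_cast this
  have hK : ringChar (AdjoinRoot q) ≠ 2 := by
    intro h
    apply h2'
    have := ringChar.Nat.cast_ringChar (R := AdjoinRoot q)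
    rw [h] at this
    exact_mod_cast this
  have hr := res_norm F q D hq
  rw [← ha] at hr
  have hr0 : q.resultant D ≠ 0 := by
    rw [hr]
    exact Algebra.norm_ne_zero_iff.2 ha0
  rw [hsq, FiniteField.isSquare_iff hF hr0, FiniteField.isSquare_iff hK ha0,
    ← (algebraMap F (AdjoinRoot q)).injective.eq_iff, map_pow, hr,
    FiniteField.algebraMap_norm_eq_pow, ← pow_mul, map_one, Nat.card_eq_fintype_card,
    Nat.card_eq_fintype_card]
  have hc := Module.card_eq_pow_finrank (K := F) (V := AdjoinRoot q)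
  have hodd := FiniteField.odd_card_of_char_ne_two hF
  have hoddK := FiniteField.odd_card_of_char_ne_two hK
  have h1 : 1 < Fintype.card F := Fintype.one_lt_card
  have hdvd : (Fintype.card F - 1) ∣ (Fintype.card (AdjoinRoot q) - 1) := by
    rw [hc]
    exact Nat.sub_one_dvd_pow_sub_one _ _
  obtain ⟨c, hc⟩ := hdvd
  have : (Fintype.card (AdjoinRoot q) - 1) / (Fintype.card F - 1) * (Fintype.card F / 2) =
      Fintype.card (AdjoinRoot q) / 2 := by
    rw [hc, Nat.mul_div_cancel_left _ (by omega)]
    obtain ⟨m, hm⟩ := Nat.odd_iff.2 hodd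
    obtain ⟨n, hn⟩ := Nat.odd_iff.2 hoddK
    rw [hm, hn] at hc
    rw [hm, hn]
    have e1 : (2 * m + 1) / 2 = m := by omega
    have e2 : (2 * n + 1) / 2 = n := by omega
    rw [e1, e2]
    have : 2 * n = 2 * (c * m) := by
      have e3 : 2 * n + 1 - 1 = 2 * n := by omega
      have e4 : 2 * m + 1 - 1 = 2 * m := by omega
      rw [e3, e4] at hc
      rw [hc]; ring
    omega
  rw [this]

theorem pf_FF1 : T_FF1 := by
  intro F _ _ h2 q D hq hi hD
  exact ff1 F h2 q D hq hi hD

end Pool.Agent.H89.N6V
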